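import Mathlib
import Pool.Agent.H218.WO.Domain

set_option autoImplicit false

open Metric Topology Filter Set
open scoped Manifold ContDiff

namespace Pool.Agent.Results.MP_23a81f_an.WeakNotOkaOne

/-- `d` is a complete distance function on `X` which induces the topology of `X`. -/
def IsCompleteDistance {X : Type} [t : TopologicalSpace X] (d : X → X → ℝ) : Prop :=
  ∃ m : MetricSpace X, m.toUniformSpace.toTopologicalSpace = t ∧
    @CompleteSpace X m.toUniformSpace ∧ ∀ x y, d x y = m.dist x y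

/-- The set `K` is Runge in `R`: no connected component of its complement is relatively
compact. -/
def IsRunge {R : Type} [TopologicalSpace R] (K : Set R) : Prop :=
  ∀ x ∉ K, ¬ IsCompact (closure (connectedComponentIn Kᶜ x))

section

variable (E : Type) [NormedAddCommGroup E] [NormedSpace ℂ E]
  (X : Type) [TopologicalSpace X] [ChartedSpace E X] [IsManifold 𝓘(ℂ, E) ω X]

/-- The complex manifold `X`, with the distance `d`, is weak Oka-1: whenever two disjoint closed
discs lie in a larger closed disc, every holomorphic map from a neighborhood of the two discs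
into `X` is approximated, uniformly on the two discs, by holomorphic maps from neighborhoods of the
large disc into `X`. -/
def WeakOkaOne (d : X → X → ℝ) : Prop :=
  ∀ (c₁ c₂ c : ℂ) (r₁ r₂ r : ℝ), 0 < r₁ → 0 < r₂ →
    Disjoint (closedBall c₁ r₁) (closedBall c₂ r₂) →
    closedBall c₁ r₁ ∪ closedBall c₂ r₂ ⊆ closedBall c r →
    ∀ (U : Set ℂ) (F : ℂ → X), IsOpen U → closedBall c₁ r₁ ∪ closedBall c₂ r₂ ⊆ U →
      MDifferentiableOn 𝓘(ℂ, ℂ) 𝓘(ℂ, E) F U → ∀ e : ℝ, 0 < e →
        ∃ (V : Set ℂ) (G : ℂ → X), IsOpen V ∧ closedBall c r ⊆ V ∧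
          MDifferentiableOn 𝓘(ℂ, ℂ) 𝓘(ℂ, E) G V ∧
          ∀ z ∈ closedBall c₁ r₁ ∪ closedBall c₂ r₂, d (G z) (F z) ≤ e

/-- Two maps from a Riemann surface `R` to `X` agree to order `k` at `a`: they have the same value
at `a` and, in local coordinates, the same derivatives up to order `k` at `a`. -/
def SameJet {R : Type} [TopologicalSpace R] [ChartedSpace ℂ R] (k : ℕ) (a : R) (F f : R → X) :
    Prop :=
  F a = f a ∧ ∀ j ≤ k,
    iteratedDeriv j (writtenInExtChartAt 𝓘(ℂ, ℂ) 𝓘(ℂ, E) a F) (extChartAt 𝓘(ℂ, ℂ) a a) =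
      iteratedDeriv j (writtenInExtChartAt 𝓘(ℂ, ℂ) 𝓘(ℂ, E) a f) (extChartAt 𝓘(ℂ, ℂ) a a)

/-- The complex manifold `X`, with the distance `d`, is Oka-1: for every open Riemann surface `R`,
every compact Runge set `K` in `R`, every closed discrete sequence `a` in `R`, all orders `k i`,
every `ε > 0` and every continuous map `f` from `R` to `X` that is holomorphic on a neighborhood of
`K` and of the points `a i`, there is a holomorphic map `F` from `R` to `X`, homotopic to `f`, which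
is `ε`-close to `f` on `K` and agrees with `f` to order `k i` at every `a i`. -/
def OkaOne (d : X → X → ℝ) : Prop :=
  ∀ (R : Type) [TopologicalSpace R] [T2Space R] [SecondCountableTopology R] [ConnectedSpace R]
    [NoncompactSpace R] [ChartedSpace ℂ R] [IsManifold 𝓘(ℂ, ℂ) ω R] (K : Set R),
    IsCompact K → IsRunge K →
    ∀ a : ℕ → R, Function.Injective a → Tendsto a cofinite (cocompact R) →
    ∀ (k : ℕ → ℕ) (ε : ℝ), 0 < ε →
    ∀ (f : C(R, X)) (U : Set R), IsOpen U → K ∪ range a ⊆ U →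
      MDifferentiableOn 𝓘(ℂ, ℂ) 𝓘(ℂ, E) f U →
      ∃ F : C(R, X), MDifferentiable 𝓘(ℂ, ℂ) 𝓘(ℂ, E) F ∧ F.Homotopic f ∧
        (∀ p ∈ K, d (F p) (f p) < ε) ∧ ∀ i, SameJet E X (k i) (a i) F f

end

open Pool.Agent.H218.WO

theorem mdiff_iff (X : TopologicalSpace.Opens (Fin 2 → ℂ)) (F : ℂ → X) (U : Set ℂ) :
    MDifferentiableOn 𝓘(ℂ, ℂ) 𝓘(ℂ, Fin 2 → ℂ) F U ↔
      DifferentiableOn ℂ (fun z => (F z : Fin 2 → ℂ)) U := by
  constructor
  · intro h
    rw [← mdifferentiableOn_iff_differentiableOn]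
    have h1 : MDifferentiable 𝓘(ℂ, Fin 2 → ℂ) 𝓘(ℂ, Fin 2 → ℂ) (Subtype.val : X → (Fin 2 → ℂ)) :=
      (contMDiff_subtype_val (n := ω)).mdifferentiable (by simp)
    exact h1.comp_mdifferentiableOn h
  · intro h x hx
    rw [mdifferentiableWithinAt_iff']
    refine ⟨?_, ?_⟩
    · rw [Topology.IsInducing.subtypeVal.continuousWithinAt_iff]
      exact (h x hx).continuousWithinAt
    · have e : writtenInExtChartAt 𝓘(ℂ, ℂ) 𝓘(ℂ, Fin 2 → ℂ) x F = (fun z => (F z : Fin 2 → ℂ)) := by
        rfl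
      rw [e]
      simp only [mfld_simps]
      exact h x hx

theorem mdiff_iff' (X : TopologicalSpace.Opens (Fin 2 → ℂ)) (F : ℂ → X) :
    MDifferentiable 𝓘(ℂ, ℂ) 𝓘(ℂ, Fin 2 → ℂ) F ↔
      Differentiable ℂ (fun z => (F z : Fin 2 → ℂ)) := by
  rw [← mdifferentiableOn_univ, mdiff_iff, differentiableOn_univ]

theorem exists_delta (X : TopologicalSpace.Opens (Fin 2 → ℂ)) (d : X → X → ℝ)
    (hd : IsCompleteDistance d) (K : Set X) (hK : IsCompact K) (e : ℝ) (he : 0 < e) :
    ∃ δ > 0, ∀ x ∈ K, ∀ y : X, ‖(y : Fin 2 → ℂ) - x‖ < δ → d y x < e := by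
  obtain ⟨m, hm, -, hdm⟩ := hd
  have hr : {p : X × X | m.dist p.1 p.2 < e} ∈ @uniformity X m.toUniformSpace := by
    rw [@Metric.mem_uniformity_dist X m.toPseudoMetricSpace]
    exact ⟨e, he, fun _ _ h => h⟩
  have hcont : ∀ a ∈ K, @ContinuousAt X X _ m.toUniformSpace.toTopologicalSpace id a := by
    intro a _
    rw [hm]
    exact continuousAt_id
  have h1 := @IsCompact.uniformContinuousAt_of_continuousAt X X _ m.toUniformSpace
    {p : X × X | m.dist p.1 p.2 < e} K hK id hcont hr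
  rw [Metric.mem_uniformity_dist] at h1
  obtain ⟨δ, hδ, h2⟩ := h1
  refine ⟨δ, hδ, fun x hx y hxy => ?_⟩
  have h3 : dist x y < δ := by
    rw [dist_comm, Subtype.dist_eq, dist_eq_norm]
    exact hxy
  have h4 : m.dist x y < e := h2 h3 hx
  rw [hdm]
  rwa [m.dist_comm] at h4

theorem weak (D : Data) (X : TopologicalSpace.Opens (Fin 2 → ℂ)) (hX : (X : Set (Fin 2 → ℂ)) = D.dom)
    (d : X → X → ℝ) (hd : IsCompleteDistance d) : WeakOkaOne (Fin 2 → ℂ) X d := by
  intro c₁ c₂ c r₁ r₂ r h₁ h₂ hdisj hsub U F hU hUsub hF e he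
  have hK : IsCompact (F '' (closedBall c₁ r₁ ∪ closedBall c₂ r₂)) :=
    ((isCompact_closedBall _ _).union (isCompact_closedBall _ _)).image_of_continuousOn
      (hF.continuousOn.mono hUsub)
  obtain ⟨δ, hδ, hδe⟩ := exists_delta _ d hd _ hK e he
  have hF1 : DifferentiableOn ℂ (fun z => (F z : Fin 2 → ℂ)) U := (mdiff_iff X F U).1 hF
  have hF2 : ∀ i, DifferentiableOn ℂ (fun z => (F z : Fin 2 → ℂ) i) U := fun i =>
    differentiableOn_pi.1 hF1 i
  obtain ⟨n, hn⟩ := D.exists_approx c₁ c₂ r₁ r₂ h₁.le h₂.le hdisj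
    (fun z => (F z : Fin 2 → ℂ)) U hU hUsub hF2 δ hδ
  have hmem : ∀ z, ev (D.g n) z ∈ X := by
    intro z
    have h := D.curve_mem_dom n z
    rw [← hX] at h
    exact h
  refine ⟨univ, fun z => ⟨ev (D.g n) z, hmem z⟩, isOpen_univ, subset_univ _, ?_, ?_⟩
  · rw [mdiff_iff]
    refine differentiableOn_pi.2 fun i => ?_
    fin_cases i
    · exact (D.g n).1.differentiable.differentiableOn
    · exact (D.g n).2.differentiable.differentiableOn
  · intro z hz
    exact (hδe (F z) ⟨z, hz, rfl⟩ ⟨ev (D.g n) z, hmem z⟩ (hn z hz)).le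

/-- Every holomorphic map from the plane to `X` which passes through the origin is constant. -/
theorem curve_const (D : Data) (X : TopologicalSpace.Opens (Fin 2 → ℂ))
    (hX : (X : Set (Fin 2 → ℂ)) = D.dom) (F : ℂ → X)
    (hF : MDifferentiable 𝓘(ℂ, ℂ) 𝓘(ℂ, Fin 2 → ℂ) F) (h0 : (F 0 : Fin 2 → ℂ) = 0) (z : ℂ) :
    (F z : Fin 2 → ℂ) = 0 := by
  have hF1 : Differentiable ℂ (fun z => (F z : Fin 2 → ℂ)) := (mdiff_iff' X F).1 hF
  refine D.liouville (fun z => (F z : Fin 2 → ℂ)) (fun i => ?_) h0 (fun w => ?_) z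
  · exact (differentiable_pi.1 hF1 i).differentiableOn.analyticOnNhd isOpen_univ
  · apply D.dom_subset
    rw [← hX]
    exact (F w).2

/-- The cut-off map. -/
noncomputable def phi (z : ℂ) : ℂ := ((max 0 (min 1 (2 - 4 * ‖z‖)) : ℝ) : ℂ) * z

theorem continuous_phi : Continuous phi := by
  unfold phi
  fun_prop

theorem phi_small (z : ℂ) (hz : ‖z‖ < 1 / 4) : phi z = z := by
  have h1 : min 1 (2 - 4 * ‖z‖) = 1 := min_eq_left (by linarith)
  rw [phi, h1, max_eq_right zero_le_one]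
  simp

theorem phi_large (z : ℂ) (hz : 1 / 2 < ‖z‖) : phi z = 0 := by
  have h1 : min 1 (2 - 4 * ‖z‖) = 2 - 4 * ‖z‖ := min_eq_right (by linarith)
  rw [phi, h1, max_eq_left (by linarith)]
  simp

theorem norm_phi_lt (z : ℂ) : ‖phi z‖ < 1 := by
  have h2 : ‖(((max 0 (min 1 (2 - 4 * ‖z‖)) : ℝ) : ℂ))‖ ≤ 1 := by
    rw [Complex.norm_real, Real.norm_of_nonneg (le_max_left _ _)]
    exact max_le zero_le_one (min_le_left _ _)
  rcases le_or_gt ‖z‖ (1 / 2) with h | h
  · rw [phi, norm_mul]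
    nlinarith [norm_nonneg z]
  · rw [phi_large z h, norm_zero]
    exact one_pos

theorem notOka (D : Data) (X : TopologicalSpace.Opens (Fin 2 → ℂ))
    (hX : (X : Set (Fin 2 → ℂ)) = D.dom) (d : X → X → ℝ) : ¬ OkaOne (Fin 2 → ℂ) X d := by
  intro hO
  have hmem : ∀ z, (![phi z, 0] : Fin 2 → ℂ) ∈ X := by
    intro z
    have h : (![phi z, 0] : Fin 2 → ℂ) ∈ D.dom := by
      apply D.ball_subset_dom
      rw [mem_ball_zero_iff, pi_norm_lt_iff one_pos]
      intro i
      fin_cases i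
      · exact norm_phi_lt z
      · simp
    rw [← hX] at h
    exact h
  have hcont : Continuous (fun z => (⟨![phi z, 0], hmem z⟩ : X)) := by
    refine Continuous.subtype_mk ?_ _
    refine continuous_pi fun i => ?_
    fin_cases i
    · exact continuous_phi
    · exact continuous_const
  have hrunge : IsRunge (∅ : Set ℂ) := by
    intro x _ hc
    rw [compl_empty] at hc
    have h1 : connectedComponentIn (univ : Set ℂ) x = univ := by
      refine eq_univ_of_univ_subset ?_
      exact isPreconnected_univ.subset_connectedComponentIn (mem_univ x) (subset_univ _)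
    rw [h1, closure_univ] at hc
    exact noncompact_univ ℂ hc
  have htend : Tendsto (fun n : ℕ => (n : ℂ)) cofinite (cocompact ℂ) := by
    rw [← Metric.cobounded_eq_cocompact, ← comap_norm_atTop, tendsto_comap_iff,
      Nat.cofinite_eq_atTop]
    have e : (norm ∘ fun n : ℕ => (n : ℂ)) = fun n : ℕ => (n : ℝ) := by
      funext n
      simp
    rw [e]
    exact tendsto_natCast_atTop_atTop
  have hU : IsOpen (ball (0:ℂ) (1 / 4) ∪ {z : ℂ | 1 / 2 < ‖z‖}) :=
    isOpen_ball.union (isOpen_lt continuous_const continuous_norm)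
  have hsub : (∅ : Set ℂ) ∪ range (fun n : ℕ => (n : ℂ)) ⊆
      ball (0:ℂ) (1 / 4) ∪ {z : ℂ | 1 / 2 < ‖z‖} := by
    rintro _ (h | ⟨n, rfl⟩)
    · exact absurd h (notMem_empty _)
    · rcases Nat.eq_zero_or_pos n with rfl | hn
      · left
        simp
      · right
        have h1 : (1:ℝ) ≤ n := by exact_mod_cast hn
        have h2 : ‖(n : ℂ)‖ = n := by simp
        change 1 / 2 < ‖(n : ℂ)‖
        rw [h2]
        linarith
  have hphi : DifferentiableOn ℂ phi (ball (0:ℂ) (1 / 4) ∪ {z : ℂ | 1 / 2 < ‖z‖}) := by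
    rintro z (hz | hz)
    · have h1 : phi =ᶠ[𝓝 z] fun w => w := by
        filter_upwards [isOpen_ball.mem_nhds hz] with w hw
        rw [mem_ball_zero_iff] at hw
        exact phi_small w hw
      exact (h1.differentiableAt_iff.2 differentiableAt_id).differentiableWithinAt
    · have h1 : phi =ᶠ[𝓝 z] fun _ => 0 := by
        filter_upwards [(isOpen_lt continuous_const continuous_norm).mem_nhds hz] with w hw
        exact phi_large w hw
      exact (h1.differentiableAt_iff.2 (differentiableAt_const 0)).differentiableWithinAt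
  have hf : MDifferentiableOn 𝓘(ℂ, ℂ) 𝓘(ℂ, Fin 2 → ℂ)
      (⟨fun z => (⟨![phi z, 0], hmem z⟩ : X), hcont⟩ : C(ℂ, X))
      (ball (0:ℂ) (1 / 4) ∪ {z : ℂ | 1 / 2 < ‖z‖}) := by
    rw [mdiff_iff]
    refine differentiableOn_pi.2 fun i => ?_
    fin_cases i
    · exact hphi
    · exact differentiableOn_const 0
  obtain ⟨F, hF, -, -, hjet⟩ := hO ℂ ∅ isCompact_empty hrunge (fun n : ℕ => (n : ℂ))
    Nat.cast_injective htend (fun _ => 1) 1 one_pos
    ⟨fun z => (⟨![phi z, 0], hmem z⟩ : X), hcont⟩ _ hU hsub hf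
  have hj := hjet 0
  obtain ⟨hj0, hj1⟩ := hj
  have hj1' := hj1 1 le_rfl
  have hphi0 : phi 0 = 0 := phi_small 0 (by simp)
  have hF0 : (F 0 : Fin 2 → ℂ) = 0 := by
    have h1 := congrArg Subtype.val hj0
    simp only [Nat.cast_zero] at h1
    rw [h1]
    change (![phi 0, 0] : Fin 2 → ℂ) = 0
    rw [hphi0]
    simp
  have hFz := curve_const D X hX F hF hF0
  have e1 : iteratedDeriv 1 (fun z => (F z : Fin 2 → ℂ)) ((0:ℕ) : ℂ) =
      iteratedDeriv 1 (fun z => (![phi z, 0] : Fin 2 → ℂ)) ((0:ℕ) : ℂ) := hj1'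
  rw [iteratedDeriv_one, iteratedDeriv_one, Nat.cast_zero] at e1
  have e2 : (fun z => (F z : Fin 2 → ℂ)) = fun _ => 0 := funext hFz
  have e3 : HasDerivAt (fun z => (![phi z, 0] : Fin 2 → ℂ)) ![1, 0] 0 := by
    rw [hasDerivAt_pi]
    intro i
    fin_cases i
    · have h1 : phi =ᶠ[𝓝 0] fun w => w := by
        filter_upwards [isOpen_ball.mem_nhds (mem_ball_self (show (0:ℝ) < 1 / 4 by norm_num))]
          with w hw
        rw [mem_ball_zero_iff] at hw
        exact phi_small w hw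
      exact (hasDerivAt_id (0:ℂ)).congr_of_eventuallyEq h1
    · exact hasDerivAt_const 0 0
  rw [e2, e3.deriv, deriv_const] at e1
  have e4 := congrFun e1 0
  simp at e4

/-- There is a connected open subset `X` of `ℂ²` which, for every complete distance inducing its
topology, is weak Oka-1 but is not Oka-1. In fact there is a point `p` of `X` such that
every holomorphic map from `ℂ` to `X` sending `0` to `p` is constant. -/
theorem result : ∃ X : TopologicalSpace.Opens (Fin 2 → ℂ), ConnectedSpace X ∧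
    (∃ d : X → X → ℝ, IsCompleteDistance d) ∧
    (∃ p : X, ∀ F : ℂ → X, MDifferentiable 𝓘(ℂ, ℂ) 𝓘(ℂ, Fin 2 → ℂ) F → F 0 = p → ∀ z, F z = p) ∧
    ∀ d : X → X → ℝ, IsCompleteDistance d →
      WeakOkaOne (Fin 2 → ℂ) X d ∧ ¬ OkaOne (Fin 2 → ℂ) X d := by
  obtain ⟨D⟩ := exists_data
  refine ⟨⟨D.dom, D.isOpen_dom⟩, ?_, ?_, ?_, ?_⟩
  · exact isConnected_iff_connectedSpace.1 D.isConnected_dom
  · have hP : PolishSpace D.dom := D.isOpen_dom.polishSpace
    obtain ⟨m, hm1, hm2⟩ := (inferInstance :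
      TopologicalSpace.IsCompletelyMetrizableSpace D.dom).complete
    exact ⟨m.dist, m, hm1, hm2, fun _ _ => rfl⟩
  · refine ⟨⟨0, D.zero_mem_dom⟩, fun F hF h0 z => ?_⟩
    apply Subtype.ext
    exact curve_const D _ rfl F hF (congrArg Subtype.val h0) z
  · intro d hd
    exact ⟨weak D _ rfl d hd, notOka D _ rfl d⟩

end Pool.Agent.Results.MP_23a81f_an.WeakNotOkaOne
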